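import Mathlib
import Pool.Agent.Lib.MP_90b327_co.AR.FinQ

/-!
The density statement of the restricted polynomial Hales-Jewett problem for `d = 2`, every density and EVERY
family, after ALMOST EVERY relabelling of the columns, with a set `γ` almost all of whose elements keep their
labels: `A` and `A ∪ γ × ρ(γ)`, where at most `K` elements of `γ` are moved by `ρ`.
-/

set_option autoImplicit false

namespace Pool.Agent.Results.MP_90b327_co.AlmostAllNearSquares

/-- For all `δ > 0`, `M` and all `h : ℕ → ℕ` there are `K`, `c > 0` and `N₀` such that for all `N ≥ N₀`, every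
family `S` of more than `δ 2^(N^2)` subsets of `[N]^2` and every permutation `π` of `[N]`, moving `t` points: for
all but `2 exp (-c min(t, N - t)) N!` of the permutations `σ` of `[N]`, with `ρ = σ π σ⁻¹`, there is a non-empty
`γ ⊆ [N]` with `|γ| ≥ M` of which exactly `k := |ρ(γ) \ γ| ≤ K` elements are moved by `ρ`, `|γ| ≥ h(k)`, such
that at least `c 2^(N^2)` sets `A` in `S` are disjoint from `γ × ρ(γ)` with `A ∪ (γ × ρ(γ)) ∈ S`. -/
theorem result (δ : ℝ) (hδ : 0 < δ) (M : ℕ) (h : ℕ → ℕ) :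
    ∃ (K : ℕ) (c : ℝ), 0 < c ∧ ∃ N₀ : ℕ, ∀ N, N₀ ≤ N →
      ∀ S : Finset (Finset (Fin 2 → Fin N)), δ * 2 ^ (N ^ 2) < (S.card : ℝ) →
        ∀ π : Equiv.Perm (Fin N),
          ((Finset.univ.filter (fun σ : Equiv.Perm (Fin N) =>
            ¬ ∃ γ : Finset (Fin N), γ.Nonempty ∧ M ≤ γ.card ∧
              (γ.filter (fun x => (σ * π * σ⁻¹) x ≠ x)).card = (γ.image (σ * π * σ⁻¹) \ γ).card ∧
              (γ.image (σ * π * σ⁻¹) \ γ).card ≤ K ∧
              h (γ.image (σ * π * σ⁻¹) \ γ).card ≤ γ.card ∧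
              c * 2 ^ (N ^ 2) ≤ ((S.filter (fun A =>
                Disjoint A (Fintype.piFinset ![γ, γ.image (σ * π * σ⁻¹)]) ∧
                A ∪ Fintype.piFinset ![γ, γ.image (σ * π * σ⁻¹)] ∈ S)).card : ℝ))).card : ℝ) ≤
            2 * Real.exp (-c * (min π.support.card (N - π.support.card) : ℕ)) * N.factorial := by
  obtain ⟨K, c, hc, N₀, key⟩ := Pool.Agent.Lib.MP_90b327_co.AR.theoremQ δ hδ M h
  refine ⟨K, c, hc, N₀, fun N hN S hS π => ?_⟩
  have := key N hN S hS π
  simp only [Pool.Agent.Lib.MP_90b327_co.AR.hits, Pool.Agent.Lib.MP_90b327_co.AR.box_two] at this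
  exact this

end Pool.Agent.Results.MP_90b327_co.AlmostAllNearSquares
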