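import Mathlib
import Pool.Agent.Lib.MP_90b327_co.AR.FinP

/-!
The density statement of the restricted polynomial Hales-Jewett problem, for every dimension, every density and
EVERY family, after ALMOST EVERY relabelling of one coordinate: in every conjugacy class of permutations of `[N]`
moving `t` points all but a proportion `2 exp (-c t)` of the relabellings make the family good. The statement of
Q1 is the case of the identity.
-/

set_option autoImplicit false

namespace Pool.Agent.Results.MP_90b327_co.AlmostAllRelabellings

/-- For all `d ≥ 2`, `δ > 0` and `M` there are `c > 0` and `N₀` such that for all `N ≥ N₀`, every coordinate `i`,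
every family `S` of more than `δ 2^(N^d)` subsets of `[N]^d` and every permutation `π` of `[N]`: for all but
`2 exp (-c t) N!` of the permutations `σ` of `[N]`, where `t` is the number of points moved by `π`, there is a
non-empty `γ ⊆ [N]` with `|γ| ≥ M` such that for at least `c 2^(N^d)` sets `A` in `S`, with
`B = {x : x_i ∈ ρ(γ), x_j ∈ γ for j ≠ i}` and `ρ = σ π σ⁻¹`, the set `A` is disjoint from `B` and `A ∪ B ∈ S`. -/
theorem result (d : ℕ) (hd : 2 ≤ d) (δ : ℝ) (hδ : 0 < δ) (M : ℕ) :
    ∃ c : ℝ, 0 < c ∧ ∃ N₀ : ℕ, ∀ N, N₀ ≤ N →
      ∀ (i : Fin d) (S : Finset (Finset (Fin d → Fin N))), δ * 2 ^ (N ^ d) < (S.card : ℝ) →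
        ∀ π : Equiv.Perm (Fin N),
          ((Finset.univ.filter (fun σ : Equiv.Perm (Fin N) =>
            ¬ ∃ γ : Finset (Fin N), γ.Nonempty ∧ M ≤ γ.card ∧
              c * 2 ^ (N ^ d) ≤ ((S.filter (fun A =>
                Disjoint A
                  (Fintype.piFinset (Function.update (fun _ => γ) i (γ.image (σ * π * σ⁻¹)))) ∧
                A ∪ Fintype.piFinset (Function.update (fun _ => γ) i (γ.image (σ * π * σ⁻¹)))
                  ∈ S)).card : ℝ))).card : ℝ) ≤
            2 * Real.exp (-c * π.support.card) * N.factorial :=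
  Pool.Agent.Lib.MP_90b327_co.AR.theoremP d hd δ hδ M

end Pool.Agent.Results.MP_90b327_co.AlmostAllRelabellings
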