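import Mathlib
import Pool.Agent.Lib.MP_90b327_co.T2Main

/-!
The conclusion of the restricted density polynomial Hales-Jewett conjecture for `d = 2` holds for
every density `δ ≥ 323/1000`, below the threshold `1/3` of the pair correlation argument.
-/

set_option autoImplicit false

namespace Pool.Agent.Results.MP_90b327_co.BelowOneThird

open Pool.Agent.Lib.MP_90b327_co

/-- For every `δ ≥ 323/1000` there is `N` such that every family of more than `δ * 2^(N^2)` subsets
of `[N]^2` contains a set `A` and `A ∪ γ^2` for some non-empty `γ ⊆ [N]` with `A` disjoint from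
`γ^2`. -/
theorem result :
    ∀ δ : ℝ, 323 / 1000 ≤ δ →
      ∃ N : ℕ, ∀ S : Finset (Finset (Fin 2 → Fin N)),
        (S.card : ℝ) > δ * (2 : ℝ) ^ (N ^ 2) →
          ∃ A ∈ S, ∃ γ : Finset (Fin N), γ.Nonempty ∧
            Disjoint A (Fintype.piFinset (fun _ : Fin 2 => γ)) ∧
            A ∪ Fintype.piFinset (fun _ : Fin 2 => γ) ∈ S := by
  intro δ hδ
  by_contra hcon
  push Not at hcon
  have h : ∀ N : ℕ, ∃ S : Finset (Finset (Fin 2 → Fin N)),
      (S.card : ℝ) > 323 / 1000 * 2 ^ (N ^ 2) ∧ ¬ Good 2 N S := by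
    intro N
    obtain ⟨S, hS, hS'⟩ := hcon N
    refine ⟨S, ?_, ?_⟩
    · have h1 : (0 : ℝ) < 2 ^ (N ^ 2) := by positivity
      exact lt_of_le_of_lt (mul_le_mul_of_nonneg_right hδ h1.le) hS
    · rintro ⟨A, hA, γ, hγ, h1, h2⟩
      exact hS' A hA γ hγ h1 h2
  obtain ⟨L⟩ := exists_limM 2 (by norm_num) (323 / 1000) (by norm_num) h
  exact L.false_of_eq rfl

end Pool.Agent.Results.MP_90b327_co.BelowOneThird
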