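import Mathlib
import Pool.Agent.Lib.MP_90b327_co.OI.OFin
import Pool.Agent.Lib.MP_90b327_co.BX.Bounded

/-!
The density statement of the restricted polynomial Hales-Jewett problem in EVERY dimension `d`, for every density
and every family, up to a BOUNDED number `K` of additional elements in `d - 1` of the `d` coordinates.
-/

set_option autoImplicit false

namespace Pool.Agent.Results.MP_90b327_co.BoundedNearCubes

open Filter Pool.Agent.Lib.MP_90b327_co

/-- For all `d`, `δ > 0`, all functions `h : ℕ → ℕ` and all sets `T` of sizes containing arbitrarily long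
intervals there are a constant `K` and `N₀` such that for `N ≥ N₀`, every coordinate `i` and every
family of more than `δ * 2^(N^d)` subsets of `[N]^d` there are `g ⊆ G ⊆ [N]`, `g` non-empty,
`|g| ∈ T`, `|G \ g| ≤ K`, `h (|G \ g|) ≤ |g|` such that the family contains a set `A` and `A ∪ B`,
where `B` consists of the cells whose `i`-th coordinate is in `g` and whose other coordinates are in `G`,
and `A` is disjoint from `B`. -/
theorem result :
    ∀ (d : ℕ) (δ : ℝ), 0 < δ → ∀ h : ℕ → ℕ,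
      ∀ T : Set ℕ, (∀ k : ℕ, ∃ x : ℕ, ∀ i < k, x + i ∈ T) →
      ∃ K N₀ : ℕ, ∀ N : ℕ, N₀ ≤ N → ∀ i : Fin d, ∀ S : Finset (Finset (Fin d → Fin N)),
        (S.card : ℝ) > δ * (2 : ℝ) ^ (N ^ d) →
          ∃ A ∈ S, ∃ g G : Finset (Fin N), g.Nonempty ∧ g ⊆ G ∧ g.card ∈ T ∧
            (G \ g).card ≤ K ∧ h (G \ g).card ≤ g.card ∧
            Disjoint A (Fintype.piFinset (Function.update (fun _ : Fin d => G) i g)) ∧
            A ∪ Fintype.piFinset (Function.update (fun _ : Fin d => G) i g) ∈ S := by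
  intro d δ hδ h T hT
  have key := BX.bounded_of_slow (X := fun N => Fin d × Finset (Finset (Fin d → Fin N)))
    (D := fun N S => (S.2.card : ℝ) > δ * (2 : ℝ) ^ (N ^ d))
    (R := fun N S c e => ∃ A ∈ S.2, ∃ g G : Finset (Fin N), g ⊆ G ∧ g.card ∈ T ∧ g.card = c ∧
      (G \ g).card = e ∧
      Disjoint A (Fintype.piFinset (Function.update (fun _ : Fin d => G) S.1 g)) ∧
      A ∪ Fintype.piFinset (Function.update (fun _ : Fin d => G) S.1 g) ∈ S.2)
    (by
      rintro N S c e ⟨A, hA, g, G, h1, h2, h3, h4, h5, h6⟩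
      rw [← h3]
      simpa using Finset.card_le_univ g)
    (by
      intro M w hw
      have hT' : OI.Thick {n | n ∈ T ∧ M ≤ n} := by
        intro k
        obtain ⟨x, hx⟩ := hT (2 * k + M + 1)
        refine ⟨x + k + M + 1, by omega, fun i hi => ⟨?_, ?_⟩⟩
        · have := hx (k + M + 1 + i) (by omega)
          rwa [show x + (k + M + 1 + i) = x + k + M + 1 + i by omega] at this
        · show M ≤ x + k + M + 1 + i
          omega
      obtain ⟨N₀, h₀⟩ := OI.near_cubes d δ hδ _ hT' w hw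
      refine ⟨N₀, fun N hN S hS => ?_⟩
      obtain ⟨A, hA, g, G, h1, h2, h3, h4, h5⟩ := h₀ N hN S.1 S.2 hS
      refine ⟨g.card, (G \ g).card, ⟨A, hA, g, G, h1, h2.1, rfl, rfl, h4, h5⟩, h2.2, ?_⟩
      rw [Finset.card_sdiff_of_subset h1]
      omega) 1 h
  obtain ⟨K, N₀, h₀⟩ := key
  refine ⟨K, N₀, fun N hN i S hS => ?_⟩
  obtain ⟨c, e, ⟨A, hA, g, G, h1, h2, h3, h4, h5, h6⟩, hM, hK, hh⟩ := h₀ N hN (i, S) hS
  refine ⟨A, hA, g, G, ?_, h1, h2, ?_, ?_, h5, h6⟩
  · rw [← Finset.card_pos, h3]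
    exact hM
  · rw [h4]
    exact hK
  · rw [h4, h3]
    exact hh

end Pool.Agent.Results.MP_90b327_co.BoundedNearCubes
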